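import Pool.Agent.H75.QA.Targets
import Pool.Agent.H68.AC.Lev
import Pool.Agent.H70.AC.A

/-!
# Quantum algorithms with access to constant-depth circuits: the trees are shallow
-/

namespace Pool.Agent.H70.QA

open Finset Pool.Agent.H68.AC Pool.Agent.H75.QA Pool.Agent.H70.AC

theorem T_congr_fd {V : Type} [DecidableEq V] [Fintype V] {s d : ℕ} (C : Ckt V s d) (P : Finset V)
    (R R' : Fin d → PA V) (h : ∀ j, fd R j = fd R' j) (g : Fin s) : C.T P R g = C.T P R' g := by
  have hr : ∀ j, rho P R j = rho P R' j := by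
    intro j
    unfold rho
    rw [h j]
  have key : ∀ n g, C.lev g = n → C.T P R g = C.T P R' g := by
    intro n
    induction n using Nat.strong_induction_on with
    | _ n ih =>
      intro g hg
      rw [C.T_eq, C.T_eq, hr, cht_congr C P P R R' g (fun g' hg' => ih _ (by omega) g' rfl)]
  exact key _ g rfl

theorem wz_nonneg {V : Type} [Fintype V] {p : ℝ} (hp : 0 ≤ p) (hp1 : p ≤ 1) (z : V → Bool) :
    0 ≤ wz p z := by
  unfold wz
  apply Finset.prod_nonneg
  intro v _
  split_ifs
  · exact hp
  · linarith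

theorem WS_nonneg {V : Type} [Fintype V] {d : ℕ} {q : ℝ} (hq : 0 ≤ q) (hq1 : q ≤ 1)
    (S : Fin d → V → Bool) : 0 ≤ WS q S :=
  Finset.prod_nonneg (fun i _ => wz_nonneg hq hq1 (S i))

/-- Module ADEEP. -/
theorem adeep_t (hPUSHS : T_PUSHS) (hA : T_A) : T_ADEEP := by
  intro k r s d A _ _ C w e x p q hw hp hp2 hq hq2 hwq
  set G : Finset (Fin k) → (Fin d → PA (VV k r A)) → ℝ :=
    fun H R => ind (∃ g, w < (C.T (K e x H) R g).depth) with hGdef
  have hle : ∀ (S : Fin d → VV k r A → Bool) (y : VV k r A → Bool),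
      ind (¬ Shal C w e x S y) ≤ ∑ H : Finset (Fin k), G H (Rof S y) := by
    intro S y
    by_cases hS : Shal C w e x S y
    · rw [ind_false (not_not.2 hS)]
      exact Finset.sum_nonneg (fun H _ => ind_nonneg _)
    · rw [ind_true hS]
      unfold Shal at hS
      push Not at hS
      obtain ⟨H, g, hg⟩ := hS
      have h1 : G H (Rof S y) = 1 := ind_true ⟨g, hg⟩
      rw [← h1]
      exact Finset.single_le_sum (f := fun H => G H (Rof S y)) (fun H _ => ind_nonneg _)
        (Finset.mem_univ H)
  have hone : ∀ H : Finset (Fin k), ∑ S : Fin d → VV k r A → Bool, ∑ y : VV k r A → Bool,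
      WS q S * wz p y * G H (Rof S y) ≤ s * (3 / 2 * 16 ^ k / 2 ^ (w + 1)) := by
    intro H
    rw [hPUSHS (VV k r A) d q p (G H) (fun R R' hR => by
      simp only [hGdef]
      have : ∀ g, C.T (K e x H) R g = C.T (K e x H) R' g := fun g => T_congr_fd C _ R R' hR g
      simp only [this])]
    refine (hA (VV k r A) s d C w (K e x H) p q hw hp hp2 hq hq2 hwq).trans ?_
    have hcard : (K e x H).card ≤ k := by
      refine Finset.card_image_le.trans ?_
      have := Finset.card_le_univ H
      rwa [Fintype.card_fin] at this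
    have h16 : (16 : ℝ) ^ (K e x H).card ≤ 16 ^ k := pow_le_pow_right₀ (by norm_num) hcard
    gcongr
  calc ∑ S : Fin d → VV k r A → Bool, ∑ y : VV k r A → Bool, WS q S * wz p y *
        ind (¬ Shal C w e x S y)
      ≤ ∑ S : Fin d → VV k r A → Bool, ∑ y : VV k r A → Bool, ∑ H : Finset (Fin k),
          WS q S * wz p y * G H (Rof S y) := by
        apply Finset.sum_le_sum
        intro S _
        apply Finset.sum_le_sum
        intro y _
        rw [← Finset.mul_sum]
        exact mul_le_mul_of_nonneg_left (hle S y)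
          (mul_nonneg (WS_nonneg hq.le (by linarith) S) (wz_nonneg hp.le (by linarith) y))
    _ = ∑ H : Finset (Fin k), ∑ S : Fin d → VV k r A → Bool, ∑ y : VV k r A → Bool,
          WS q S * wz p y * G H (Rof S y) := by
        rw [Finset.sum_comm (s := (Finset.univ : Finset (Finset (Fin k))))]
        exact Finset.sum_congr rfl (fun S _ => Finset.sum_comm)
    _ ≤ ∑ _H : Finset (Fin k), (s * (3 / 2 * 16 ^ k / 2 ^ (w + 1)) : ℝ) :=
        Finset.sum_le_sum (fun H _ => hone H)
    _ = deepErr k s w := by
        rw [Finset.sum_const, Finset.card_univ, Fintype.card_finset, Fintype.card_fin, nsmul_eq_mul]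
        unfold deepErr
        push_cast
        ring

end Pool.Agent.H70.QA
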