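import Pool.Agent.H75.QA.Targets
import Pool.Agent.H70.AC.FL
import Pool.Agent.H68.AC.Lev

/-!
# Quantum algorithms with access to constant-depth circuits: the first-large argument for alive paths
-/

namespace Pool.Agent.H70.QA

open Finset Pool.Agent.H68.AC Pool.Agent.H75.QA Pool.Agent.H70.AC

theorem fd_Rof_some {V : Type} {d : ℕ} (S : Fin d → V → Bool) (y : V → Bool) (j : ℕ) (v : V)
    (b : Bool) (h : fd (Rof S y) j v = some b) : b = y v := by
  induction j with
  | zero => simp [fd] at h
  | succ j ih =>
    simp only [fd, mrg] at h
    cases h1 : fd (Rof S y) j v with
    | some b' =>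
      rw [h1] at h ih
      exact ih h
    | none =>
      rw [h1] at h
      simp only at h
      by_cases hj : j < d
      · simp only [hj, dite_true, Rof] at h
        split_ifs at h
        exact (Option.some.inj h).symm
      · simp [hj] at h

theorem fd_Rof_none {V : Type} {d : ℕ} (S : Fin d → V → Bool) (y : V → Bool) (j : ℕ) (v : V)
    (h : fd (Rof S y) j v = none) (i : Fin d) (hi : i.1 < j) : S i v = true := by
  induction j with
  | zero => omega
  | succ j ih =>
    simp only [fd, mrg] at h
    cases h1 : fd (Rof S y) j v with
    | some b' =>
      rw [h1] at h
      simp at h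
    | none =>
      rw [h1] at h
      simp only at h
      rcases Nat.lt_succ_iff_lt_or_eq.1 hi with hlt | heq
      · exact ih h1 hlt
      · have hj : j < d := by rw [← heq]; exact i.2
        simp only [hj, dite_true, Rof] at h
        have hij : (⟨j, hj⟩ : Fin d) = i := Fin.ext heq.symm
        rw [hij] at h
        by_contra hS
        rw [if_neg hS] at h
        simp at h

/-- Module FLA. -/
theorem fla_t (hEXT : T_EXT) (hLOCW : T_LOCW) (hCANP : T_CANP) (hBPS : T_BPS) (hBPN : T_BPN)
    (hNXS : T_NXS) : T_FLA := by
  intro k r s d A _ _ C w e x S y β h hE h1 hShal hG
  have key : ∀ n g, C.lev g = n → ∀ ψ c, IsPath (C.T (K e x univ) (Rof S y) g) ψ c →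
      Alive (K e x univ) S y (C.lev g) ψ → (VS e (HH e x ψ)).card ≤ β := by
    intro n
    induction n using Nat.strong_induction_on with
    | _ n ih =>
      intro g hg ψ c hψ hal
      rw [C.T_eq] at hψ
      obtain ⟨π, hπ, hbp, _⟩ := hCANP _ _ _ _ _ _ (nfree_le _) hψ
      have main : ∀ π, IsBP (C.cht (K e x univ) (Rof S y) g)
          (rho (K e x univ) (Rof S y) (C.lev g + 1)) π →
          Alive (K e x univ) S y (C.lev g) π.flatten → (VS e (HH e x π.flatten)).card ≤ β := by
        intro π
        induction π using List.reverseRecOn with
        | nil =>
          intro _ _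
          rw [List.flatten_nil, HH_nil]
          simp [VS]
        | append_singleton π α ihπ =>
          intro hb hbal
          have hfl : (π ++ [α]).flatten = π.flatten ++ α := by
            rw [List.flatten_append]; simp
          obtain ⟨hb1, τ, hτ, hfr, hα⟩ := (hBPS _ _ _ _ _).1 hb
          have hπal : Alive (K e x univ) S y (C.lev g) π.flatten := by
            intro c hc hcP
            exact hbal c (by rw [hfl]; exact List.mem_append_left _ hc) hcP
          have hs1 : (HH e x π.flatten).card ≤ h := expd_small hE _ (ihπ hb1 hπal)
          have hs2 : (HH e x τ).card ≤ h := by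
            obtain ⟨hAg, _, c, hc, hp⟩ := (hNXS _ _ _).1 τ hτ
            obtain ⟨⟨b, a⟩, ha, rfl⟩ := (C.mem_cht _ (Rof S y) g c).1 hc
            rcases a with i | g'
            · rcases inp_path i τ _ hp with rfl | ⟨a, rfl⟩
              · rw [HH_nil]; simp
              · exact (HH_single e x a).trans h1
            · have hl := C.acyc g b g' ha
              have hld := C.lev_lt g
              refine expd_small hE _ (ih (C.lev g') (by omega) g' rfl τ _ hp ?_)
              intro u hu huP
              have hmask : rho (K e x univ) (Rof S y) (C.lev g + 1) u.1 =
                  fd (Rof S y) (C.lev g + 1) u.1 := by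
                simp only [rho, mask, if_neg huP]
              cases hk0 : rho (K e x univ) (Rof S y) (C.lev g + 1) u.1 with
              | some b0 =>
                left
                have hb0 : b0 = y u.1 := fd_Rof_some S y _ _ _ (hmask ▸ hk0)
                have hnq : u.1 ∉ π.flatten.map Prod.fst := by
                  intro hm
                  obtain ⟨c', hc', hcu⟩ := List.mem_map.1 hm
                  have := (hBPN _ _ _ _ hb1).2.1 c' hc'
                  rw [hcu, hk0] at this
                  simp at this
                have hk : updL (rho (K e x univ) (Rof S y) (C.lev g + 1)) π.flatten u.1 =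
                    some b0 := by
                  rw [updL_not_mem _ _ _ hnq, hk0]
                rw [← hb0]
                exact hAg u hu b0 hk
              | none =>
                right
                refine ⟨by omega, ?_⟩
                exact fd_Rof_none S y (C.lev g + 1) u.1 (hmask ▸ hk0) _ (by simp only; omega)
          have hs3 : (HH e x α).card ≤ h := by
            refine (Finset.card_le_card (HH_mono e x α τ ?_)).trans hs2
            intro v hv
            rw [hα, mem_fr] at hv
            exact hv.1
          by_contra hcon
          push Not at hcon
          have hcard : (HH e x (π ++ [α]).flatten).card ≤ 2 * h := by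
            rw [hfl, HH_append]
            refine (Finset.card_union_le _ _).trans ?_
            omega
          have hAB : K e x (HH e x (π ++ [α]).flatten) ⊆ K e x univ :=
            Finset.image_subset_image (Finset.subset_univ _)
          have hav : Avoid {v | v ∈ K e x univ ∧ v ∉ K e x (HH e x (π ++ [α]).flatten)}
              (π ++ [α]).flatten := by
            intro c hc hcm
            obtain ⟨hc1, hc2⟩ := hcm
            simp only [K, mem_image, mem_univ, true_and] at hc1
            obtain ⟨j, hj⟩ := hc1
            apply hc2
            rw [K, mem_image]
            refine ⟨j, ?_, hj⟩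
            rw [mem_HH, hj]
            exact List.mem_map_of_mem hc
          have hbA := (hLOCW _ _ _ C _ _ (Rof S y) g hAB).2 _ hb hav
          obtain ⟨ψ', c', hp', hψ'⟩ := hEXT _ _ _ _ _ y (nfree_le _) hbA
          rw [← C.T_eq] at hp'
          refine hG _ hcon hcard g ⟨hShal _ g, _, c', hp', ?_, ?_⟩
          · intro u hu huA
            rcases List.mem_append.1 hu with hu | hu
            · refine hbal u hu ?_
              intro huP
              exact hav u hu ⟨huP, huA⟩
            · exact Or.inl (hψ' u hu)
          · intro v hv
            rw [K, mem_image] at hv
            obtain ⟨j, hj, rfl⟩ := hv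
            rw [mem_HH] at hj
            rw [List.map_append]
            exact List.mem_append_left _ hj
      rw [← hπ]
      exact main π hbp (by rw [hπ]; exact hal)
  intro g ψ c hψ hal
  exact key _ g rfl ψ c hψ hal

end Pool.Agent.H70.QA
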