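import Pool.Agent.H75.QA.Targets
import Pool.Agent.H68.AC.Can

/-!
# Quantum algorithms with access to constant-depth circuits: module EXT
-/

namespace Pool.Agent.H70.QA

open Finset Pool.Agent.H68.AC Pool.Agent.H75.QA

theorem ext_t : T_EXT := by
  intro V _ _ cs n κ π y
  induction π generalizing n κ with
  | nil =>
    intro _ _
    obtain ⟨ψ, h1, h2⟩ := exists_path (can cs n κ) y
    exact ⟨ψ, _, h1, h2⟩
  | cons α π ih =>
    intro hn hb
    cases n with
    | zero => omega
    | succ n =>
      obtain ⟨⟨τ, hx, hf, hα⟩, hb⟩ := hb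
      obtain ⟨h1, h2⟩ := block_free hf hα
      have := nfree_updL h1 h2
      obtain ⟨ψ, c, h3, h4⟩ := ih n (updL κ α) (by omega) hb
      refine ⟨ψ, c, ?_, h4⟩
      simp only [can, hx, hf, if_false, List.flatten_cons]
      exact qa_path.2 ⟨α, π.flatten ++ ψ, by rw [List.append_assoc], hα, h3⟩

end Pool.Agent.H70.QA
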